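import Pool.Agent.Lib.P325k.Num

/-!
# The two main cases
-/

set_option autoImplicit false

open Finset Pool.Agent.Lib.P325F

namespace Pool.Agent.Lib.P325k

open Pool.Agent.Lib.P325h

theorem indep_case {V ι L : Type} [Fintype V] [DecidableEq V] [Fintype ι] [Fintype L]
    [DecidableEq L] {s t : ι → V} {side : V → Bool} (perm : ι → Equiv.Perm L)
    {E : ((V → L) → ℝ) →ₗ[ℝ] ℝ} {r : ℕ} (hside : ∀ e, side (s e) ≠ side (t e))
    (hE : IsLocalExpectation r E) {s0 δ x A B n : ℝ} (hδ : 0 < δ) (hδs : δ < s0)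
    (hs1 : s0 ≤ 31 / 32) (hA : A = -Real.log s0) (hB : B = -Real.log δ) (hx : x = A / B)
    (hx1 : x ≤ 1 / 1600) (hn : n = Fintype.card V) (hn1 : 1 ≤ n) (hnl : B - A < Real.log n)
    (hr : (1 + 1 / x) ^ 16 * n ^ (250 * x * Real.log (2 + 1 / x)) ≤ r)
    (hsum : s0 * Fintype.card ι ≤ ∑ e, E (P325u.sat (s e) (t e) (perm e))) :
    ∃ y : V → L, δ * Fintype.card ι ≤ P325F.sat s t perm (fun _ => 1) y := by
  have hs0 : 0 < s0 := hδ.trans hδs
  have hA32 : 1 / 32 ≤ A := by
    have := Real.log_le_sub_one_of_pos hs0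
    rw [hA]
    linarith
  have hA0 : 0 < A := by linarith
  have hBA : A < B := by
    have := Real.log_lt_log hδ hδs
    rw [hA, hB]
    linarith
  have hB0 : 0 < B := by linarith
  have hx0 : 0 < x := by rw [hx]; positivity
  have hAx : A = x * B := by rw [hx, div_mul_cancel₀ _ hB0.ne']
  have hB50 : 50 ≤ B := by
    rw [hAx] at hA32
    nlinarith
  set l : ℝ := Real.log n with hl
  have hBl : B ≤ 1.0007 * l := by nlinarith
  have hl0 : 0 < l := by linarith
  have hn0 : 0 < n := by linarith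
  have hlog : Real.log 8192 ≤ 9.02 := by
    have h1 : Real.log 8192 = 13 * Real.log 2 := by
      rw [show (8192 : ℝ) = 2 ^ (13 : ℕ) by norm_num, Real.log_pow]
      norm_num
    rw [h1]
    have := Real.log_two_lt_d9
    linarith
  set D := (B - 5 * A - Real.log 8192) / 2 with hDdef
  have hDB : 0.4 * B ≤ D := by
    rw [hDdef, hAx]
    nlinarith
  have hD : 0 < D := by linarith
  set X : ℝ := x * l with hX
  have hX0 : 0 < X := by positivity
  obtain ⟨lam, hlam0, hlam8, hlamD, hlam1, hlamA⟩ := lam_choice hD hl0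
  set k : ℝ := 1 / x with hk
  have hk16 : 1600 ≤ k := by
    rw [hk, le_div_iff₀ hx0]
    linarith
  have hkx : k * x = 1 := by rw [hk]; field_simp
  have hLg : 7.3 ≤ Real.log k := by
    have h1 : Real.log 1600 ≤ Real.log k := Real.log_le_log (by norm_num) hk16
    have h2 : Real.log 1600 = 6 * Real.log 2 + 2 * Real.log 5 := by
      rw [show (1600 : ℝ) = 2 ^ (6 : ℕ) * 5 ^ (2 : ℕ) by norm_num, Real.log_mul (by norm_num)
        (by norm_num), Real.log_pow, Real.log_pow]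
      norm_num
    have h3 : 1.6 ≤ Real.log 5 := by
      have h4 : 7 * Real.log 2 ≤ 3 * Real.log 5 + 3 * Real.log (128 / 125) := by
        have h5 : 7 * Real.log 2 = Real.log 128 := by
          rw [show (128 : ℝ) = 2 ^ (7 : ℕ) by norm_num, Real.log_pow]
          norm_num
        have h6 : 3 * Real.log 5 = Real.log 125 := by
          rw [show (125 : ℝ) = 5 ^ (3 : ℕ) by norm_num, Real.log_pow]
          norm_num
        have h7 : Real.log 128 = Real.log 125 + Real.log (128 / 125) := by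
          rw [← Real.log_mul (by norm_num) (by norm_num)]
          norm_num
        have h8 : 0 ≤ Real.log (128 / 125) := Real.log_nonneg (by norm_num)
        linarith
      have h5 : Real.log (128 / 125) ≤ 128 / 125 - 1 := Real.log_le_sub_one_of_pos (by norm_num)
      have h6 := Real.log_two_gt_d9
      have h7 : 7 * Real.log 2 ≤ 3 * Real.log 5 + Real.log (128 / 125) := by
        have h5 : 7 * Real.log 2 = Real.log 128 := by
          rw [show (128 : ℝ) = 2 ^ (7 : ℕ) by norm_num, Real.log_pow]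
          norm_num
        have h6 : 3 * Real.log 5 = Real.log 125 := by
          rw [show (125 : ℝ) = 5 ^ (3 : ℕ) by norm_num, Real.log_pow]
          norm_num
        have h7 : Real.log 128 = Real.log 125 + Real.log (128 / 125) := by
          rw [← Real.log_mul (by norm_num) (by norm_num)]
          norm_num
        linarith
      linarith
    have h4 := Real.log_two_gt_d9
    linarith
  have hLk : Real.log k ≤ k := (Real.log_le_sub_one_of_pos (by linarith)).trans (by linarith)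
  have hL2 : Real.log k ≤ Real.log (2 + k) := Real.log_le_log (by linarith) (by linarith)
  have hAX : A ≤ 1.001 * X := by
    rw [hAx, hX]
    nlinarith
  have hAl : A * l / D ≤ 8.01 * X := by
    rw [div_le_iff₀ hD, hAx, hX]
    have h1 : 0 < x * l := hX0
    nlinarith
  have hAg := hlamA A (8.01 * X) hA0.le (by linarith) hAl
  have hlD : l / D ≤ 80 * X := by
    rw [div_le_iff₀ hD]
    have h1 : l ≤ 32 * (A * l) := by nlinarith
    have h2 : A * l = B * X := by rw [hAx, hX]; ring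
    have h3 : 32 * (B * X) ≤ 80 * X * D := by
      have : X * (0.4 * B) ≤ X * D := mul_le_mul_of_nonneg_left hDB hX0.le
      nlinarith
    linarith
  obtain ⟨J, hJe, hJ0, hJ1, hJ2⟩ := exists_steps (u := k) hlam0 (by linarith)
  have hJr : (0 : ℝ) < J := by exact_mod_cast hJ0
  set Q : ℝ := n ^ x * (2 * (16 / lam ^ 2) ^ 8) with hQ
  have hQ8 : 2 * (16 / lam ^ 2) ^ 8 ≤ Q := by
    rw [hQ]
    have h1 : 1 ≤ n ^ x := Real.one_le_rpow hn1 hx0.le
    have h2 : 0 ≤ 2 * (16 / lam ^ 2) ^ 8 := by positivity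
    nlinarith
  have hJQ : Real.log (2 * n / lam) ≤ (1 + lam / 4) ^ J * Real.log Q :=
    step_cond hlam0 hlam8 hn1 hx0 (by linarith) hJ1
  have hQ2 : Q = Real.exp X * (2 ^ 33 * (1 / lam) ^ 16) := by
    rw [hQ, Real.rpow_def_of_pos hn0, ← hl, mul_comm l x, ← hX]
    congr 1
    rw [div_pow, div_pow]
    field_simp
    norm_num
  have hsexp : s0 = Real.exp (-A) := by rw [hA, neg_neg, Real.exp_log hs0]
  have hτ6 : (s0 ^ 3)⁻¹ ^ (2 * J) = Real.exp (6 * A * J) := by
    rw [hsexp, ← Real.exp_nat_mul, ← Real.exp_neg, ← Real.exp_nat_mul]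
    congr 1
    push_cast
    ring
  have hτ3 : (s0 ^ 3)⁻¹ ^ J = Real.exp (3 * A * J) := by
    rw [hsexp, ← Real.exp_nat_mul, ← Real.exp_neg, ← Real.exp_nat_mul]
    congr 1
    push_cast
    ring
  have hdeg : 2 * (Q * (s0 ^ 3)⁻¹ ^ (2 * J)) + 8 * (J : ℝ) ^ 2 * (s0 ^ 3)⁻¹ ^ J + 5 ≤ r := by
    refine le_trans ?_ hr
    rw [hQ2]
    have hpw : n ^ (250 * x * Real.log (2 + k)) = Real.exp (250 * X * Real.log (2 + k)) := by
      rw [Real.rpow_def_of_pos hn0]
      congr 1
      rw [hX]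
      ring
    rw [hpw]
    have hg8 : 8 ≤ 1 / lam := by
      rw [le_div_iff₀ hlam0]
      linarith
    refine deg_indep (k := k) (Lg := Real.log k) (L2 := Real.log (2 + k)) (g := 1 / lam)
      (A := A) (X := X) (J := J) hX0.le hk16 hLg hLk hL2 hA0.le hAX hg8 (by linarith) ?_ hJr.le
      ?_ hτ6 hτ3
    · rw [mul_one_div]
      exact hAg
    · rw [mul_one_div]
      exact hJ2
  obtain ⟨y, hy⟩ := gen_indep perm hside hE hs0 (by linarith) hJe hJ0 hlam0 hlam8 hQ8
    (by rw [← hn]; exact hJQ) hdeg hsum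
  refine ⟨y, le_trans ?_ hy⟩
  apply mul_le_mul_of_nonneg_right _ (Nat.cast_nonneg _)
  rw [← hn]
  have hnl2 : Real.exp (-D) ≤ n ^ (-lam) := by
    rw [Real.rpow_def_of_pos hn0]
    apply Real.exp_le_exp.2
    rw [← hl]
    linarith
  have hv : s0 ^ 2 / 32 ≤ s0 ^ 2 - s0 ^ 3 := by
    have h1 : s0 ^ 2 - s0 ^ 3 = s0 ^ 2 * (1 - s0) := by ring
    rw [h1, div_eq_mul_one_div]
    have h2 : (1 : ℝ) / 32 ≤ 1 - s0 := by linarith
    gcongr
  have hE2 : Real.exp (-D) ^ 2 = 8192 * δ / s0 ^ 5 := by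
    have h1 : δ = Real.exp (-B) := by rw [hB, neg_neg, Real.exp_log hδ]
    have h2 : (8192 : ℝ) = Real.exp (Real.log 8192) := (Real.exp_log (by norm_num)).symm
    rw [eq_div_iff (by positivity), hsexp, ← Real.exp_nat_mul, ← Real.exp_nat_mul, ← Real.exp_add]
    conv_rhs => rw [h2, h1]
    rw [← Real.exp_add]
    congr 1
    rw [hDdef]
    push_cast
    ring
  have h6 : s0 ^ 2 / 32 * Real.exp (-D) / 2 ≤ (s0 ^ 2 - s0 ^ 3) * n ^ (-lam) / 2 := by
    have h8 : 0 < Real.exp (-D) := Real.exp_pos _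
    have h9 : 0 ≤ s0 ^ 2 - s0 ^ 3 := le_trans (by positivity) hv
    gcongr
  have h7 : (s0 ^ 2 / 32 * Real.exp (-D) / 2) ^ 2 ≤
      ((s0 ^ 2 - s0 ^ 3) * n ^ (-lam) / 2) ^ 2 :=
    pow_le_pow_left₀ (by positivity) h6 2
  have e1 : (s0 ^ 2 / 32 * Real.exp (-D) / 2) ^ 2 * (s0 / 2) =
      s0 ^ 5 * Real.exp (-D) ^ 2 / 8192 := by ring
  have e2 : s0 ^ 5 * Real.exp (-D) ^ 2 / 8192 = δ := by
    rw [hE2]
    have : s0 ^ 5 ≠ 0 := by positivity
    field_simp
  rw [e2] at e1
  rw [← e1]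
  exact mul_le_mul_of_nonneg_right h7 (by positivity)

theorem thr_case {V ι L : Type} [Fintype V] [DecidableEq V] [Fintype ι] [Fintype L]
    [DecidableEq L] {s t : ι → V} {side : V → Bool} (perm : ι → Equiv.Perm L)
    {E : ((V → L) → ℝ) →ₗ[ℝ] ℝ} {r : ℕ} (hside : ∀ e, side (s e) ≠ side (t e))
    (hE : IsLocalExpectation r E) {s0 δ x A B n : ℝ} (hδ : 0 < δ) (hδ1 : δ ≤ 1 / 1024)
    (hs0 : 31 / 32 ≤ s0) (hs1 : s0 < 1) (hA : A = -Real.log s0) (hB : B = -Real.log δ)
    (hx : x = A / B)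
    (hx1 : x ≤ 1 / 20000) (hn : n = Fintype.card V) (hn1 : 1 ≤ n) (hnl : B - A < Real.log n)
    (hr : (1 + 1 / x) ^ 16 * n ^ (2500 * x * Real.log (2 + 1 / x)) ≤ r)
    (hsum : s0 * Fintype.card ι ≤ ∑ e, E (P325u.sat (s e) (t e) (perm e))) :
    ∃ y : V → L, δ * Fintype.card ι ≤ P325F.sat s t perm (fun _ => 1) y := by
  have hs00 : 0 < s0 := by linarith
  have hεA : 1 - s0 ≤ A := by
    have := Real.log_le_sub_one_of_pos hs00
    rw [hA]
    linarith
  have hA0 : 0 < A := by linarith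
  have hB10 : 10 * Real.log 2 ≤ B := by
    have h1 : Real.log δ ≤ Real.log (1 / 1024) := Real.log_le_log hδ hδ1
    have h2 : Real.log (1 / 1024 : ℝ) = -(10 * Real.log 2) := by
      rw [one_div, Real.log_inv, show (1024 : ℝ) = 2 ^ 10 by norm_num, Real.log_pow]
      push_cast; ring
    rw [hB]
    linarith
  have hl2 := Real.log_two_gt_d9
  have hB0 : 0 < B := by linarith
  have hx0 : 0 < x := by rw [hx]; positivity
  have hAx : A = x * B := by rw [hx, div_mul_cancel₀ _ hB0.ne']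
  set l : ℝ := Real.log n with hl
  have hBl : B ≤ 1.0007 * l := by nlinarith
  have hl0 : 0 < l := by linarith
  have hn0 : 0 < n := by linarith
  have hl32 : Real.log 32 = 5 * Real.log 2 := by
    rw [show (32 : ℝ) = 2 ^ (5 : ℕ) by norm_num, Real.log_pow]
    norm_num
  set D := (B - Real.log 32) / 2 with hDdef
  have hDB : B / 4 ≤ D := by
    rw [hDdef]
    linarith
  have hD : 0 < D := by linarith
  set X : ℝ := x * l with hX
  have hX0 : 0 < X := by positivity
  obtain ⟨lam, hlam0, hlam8, hlamD, hlam1, hlamA⟩ := lam_choice hD hl0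
  set k : ℝ := 1 / x with hk
  have hk16 : 20000 ≤ k := by
    rw [hk, le_div_iff₀ hx0]
    linarith
  have hkx : k * x = 1 := by rw [hk]; field_simp
  have hLg : 9.7 ≤ Real.log k := log_ge 14 9.7 (by linarith) (by norm_num)
  have hLk : Real.log k ≤ k := (Real.log_le_sub_one_of_pos (by linarith)).trans (by linarith)
  have hL2 : Real.log k ≤ Real.log (2 + k) := Real.log_le_log (by linarith) (by linarith)
  have hAX : A ≤ 1.001 * X := by
    rw [hAx, hX]
    nlinarith
  have hAl : A * l / D ≤ 8.01 * X := by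
    rw [div_le_iff₀ hD, hAx, hX]
    have h1 : 0 < x * l := hX0
    nlinarith
  have hAg := hlamA A (8.01 * X) hA0.le (by linarith) hAl
  have hlD : l / D ≤ 0.578 * (k * X) := by
    have h1 : k * X = l := by
      rw [hX, ← mul_assoc, hkx, one_mul]
    rw [h1, div_le_iff₀ hD]
    nlinarith
  obtain ⟨J, hJe, hJ0, hJ1, hJ2⟩ := exists_steps (u := k) hlam0 (by linarith)
  have hJr : (0 : ℝ) < J := by exact_mod_cast hJ0
  set Q : ℝ := n ^ x * (2 * (16 / lam ^ 2) ^ 8) with hQ
  have hQ8 : 2 * (16 / lam ^ 2) ^ 8 ≤ Q := by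
    rw [hQ]
    have h1 : 1 ≤ n ^ x := Real.one_le_rpow hn1 hx0.le
    have h2 : 0 ≤ 2 * (16 / lam ^ 2) ^ 8 := by positivity
    nlinarith
  have hJQ : Real.log (2 * n / lam) ≤ (1 + lam / 4) ^ J * Real.log Q :=
    step_cond hlam0 hlam8 hn1 hx0 (by linarith) hJ1
  have hQ2 : Q = Real.exp X * (2 ^ 33 * (1 / lam) ^ 16) := by
    rw [hQ, Real.rpow_def_of_pos hn0, ← hl, mul_comm l x, ← hX]
    congr 1
    rw [div_pow, div_pow]
    field_simp
    norm_num
  have hpos16 : 0 < 1 - 16 * (1 - s0) := by linarith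
  have hinv : (1 - 16 * (1 - s0))⁻¹ ≤ Real.exp (32 * A) := by
    rw [inv_le_iff_one_le_mul₀ hpos16]
    have h2 := Real.add_one_le_exp (32 * (1 - s0))
    have h3 : Real.exp (32 * (1 - s0)) ≤ Real.exp (32 * A) := Real.exp_le_exp.2 (by linarith)
    nlinarith
  have hτ6 : (1 - 16 * (1 - s0))⁻¹ ^ (2 * J) ≤ Real.exp (64 * A * J) := by
    calc (1 - 16 * (1 - s0))⁻¹ ^ (2 * J) ≤ Real.exp (32 * A) ^ (2 * J) :=
          pow_le_pow_left₀ (inv_nonneg.2 hpos16.le) hinv _
      _ = Real.exp (64 * A * J) := by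
          rw [← Real.exp_nat_mul]; congr 1; push_cast; ring
  have hτ3 : (1 - 16 * (1 - s0))⁻¹ ^ J ≤ Real.exp (32 * A * J) := by
    calc (1 - 16 * (1 - s0))⁻¹ ^ J ≤ Real.exp (32 * A) ^ J :=
          pow_le_pow_left₀ (inv_nonneg.2 hpos16.le) hinv _
      _ = Real.exp (32 * A * J) := by
          rw [← Real.exp_nat_mul]; congr 1; push_cast; ring
  have hdeg : 128 * Q * (1 - 16 * (1 - s0))⁻¹ ^ (2 * J) +
      8 * (J : ℝ) ^ 2 * (1 - 16 * (1 - s0))⁻¹ ^ J + 5 ≤ r := by
    refine le_trans ?_ hr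
    rw [hQ2]
    have hpw : n ^ (2500 * x * Real.log (2 + k)) = Real.exp (2500 * X * Real.log (2 + k)) := by
      rw [Real.rpow_def_of_pos hn0]
      congr 1
      rw [hX]
      ring
    rw [hpw]
    have hg8 : 8 ≤ 1 / lam := by
      rw [le_div_iff₀ hlam0]
      linarith
    refine deg_thr (k := k) (Lg := Real.log k) (L2 := Real.log (2 + k)) (g := 1 / lam)
      (A := A) (X := X) (J := J) hX0.le hk16 hLg hLk hL2 hA0.le hAX hg8 (by linarith) ?_ hJr.le
      ?_ hτ6 (by positivity) (by positivity) hτ3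
    · rw [mul_one_div]
      exact hAg
    · rw [mul_one_div]
      exact hJ2
  obtain ⟨y, hy⟩ := gen_thr perm hside hE hs0 hs1 hJe hJ0 hlam0 hlam8 hQ8
    (by rw [← hn]; exact hJQ) hdeg hsum
  refine ⟨y, le_trans ?_ hy⟩
  apply mul_le_mul_of_nonneg_right _ (Nat.cast_nonneg _)
  rw [← hn]
  have hnl2 : Real.exp (-D) ≤ n ^ (-lam) := by
    rw [Real.rpow_def_of_pos hn0]
    apply Real.exp_le_exp.2
    rw [← hl]
    linarith
  have hE2 : Real.exp (-D) ^ 2 = 32 * δ := by
    have h1 : δ = Real.exp (-B) := by rw [hB, neg_neg, Real.exp_log hδ]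
    have h2 : (32 : ℝ) = Real.exp (Real.log 32) := (Real.exp_log (by norm_num)).symm
    rw [← Real.exp_nat_mul]
    conv_rhs => rw [h2, h1]
    rw [← Real.exp_add]
    congr 1
    rw [hDdef]
    push_cast
    ring
  have h7 : Real.exp (-D) ^ 2 ≤ (n ^ (-lam)) ^ 2 :=
    pow_le_pow_left₀ (Real.exp_pos _).le hnl2 2
  rw [hE2] at h7
  linarith

end Pool.Agent.Lib.P325k
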