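import Pool.Agent.Lib.P325k.Thr
import Pool.Agent.Lib.P325v.CoreMain

/-!
# The explicit forms behind the estimates (Sherali-Adams version)
-/

set_option autoImplicit false

open Finset Matrix Pool.Agent.Lib.P325F
open Pool.Agent.Lib.P325v (RND core_main)

namespace Pool.Agent.Lib.P325k

open Pool.Agent.Lib.P325h

theorem one_le_Q {lam Q : ℝ} (hl : 0 < lam) (hl8 : lam ≤ 1 / 8)
    (hQ : 2 * (16 / lam ^ 2) ^ 8 ≤ Q) : 1 ≤ Q := by
  have h1 : 1 ≤ 16 / lam ^ 2 := by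
    rw [le_div_iff₀ (by positivity)]
    nlinarith
  have h2 : 1 ≤ (16 / lam ^ 2) ^ 8 := one_le_pow₀ h1
  linarith

/-- The explicit form for independent rounding. -/
theorem gen_indep {V ι L : Type} [Fintype V] [DecidableEq V] [Fintype ι] [Fintype L]
    [DecidableEq L] {s t : ι → V} {side : V → Bool} (perm : ι → Equiv.Perm L)
    {E : ((V → L) → ℝ) →ₗ[ℝ] ℝ} {r : ℕ} (hside : ∀ e, side (s e) ≠ side (t e))
    (hE : IsLocalExpectation r E) {s0 : ℝ} (hs0 : 0 < s0) (hs01 : s0 < 1) {J : ℕ}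
    (hJe : Even J) (hJ0 : 0 < J) {Q lam : ℝ} (hl : 0 < lam) (hl8 : lam ≤ 1 / 8)
    (hQ : 2 * (16 / lam ^ 2) ^ 8 ≤ Q)
    (hJQ : Real.log (2 * Fintype.card V / lam) ≤ (1 + lam / 4) ^ J * Real.log Q)
    (hdeg : 2 * (Q * (s0 ^ 3)⁻¹ ^ (2 * J)) + 8 * (J : ℝ) ^ 2 * (s0 ^ 3)⁻¹ ^ J + 5 ≤ r)
    (hsum : s0 * Fintype.card ι ≤ ∑ e, E (P325u.sat (s e) (t e) (perm e))) :
    ∃ x : V → L, ((s0 ^ 2 - s0 ^ 3) * (Fintype.card V : ℝ) ^ (-lam) / 2) ^ 2 * (s0 / 2) *
      Fintype.card ι ≤ P325F.sat s t perm (fun _ => 1) x := by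
  have hQ1 : 1 ≤ Q := one_le_Q hl hl8 hQ
  have hr2 : 2 ≤ r := by
    have h1 : 0 ≤ Q * (s0 ^ 3)⁻¹ ^ (2 * J) := by positivity
    have h3 : 0 ≤ 8 * (J : ℝ) ^ 2 * (s0 ^ 3)⁻¹ ^ J := by positivity
    have h2 : (2 : ℝ) ≤ r := by linarith
    exact_mod_cast h2
  have hst : ∀ e, s e ≠ t e := fun e h => hside e (by rw [h])
  have hSOS := sos_of_le (s := s) (t := t) perm hst hE (Or.inr hJe) hJ0 hQ1
    (by positivity : (0 : ℝ) < s0 ^ 3) hdeg
  have hf := fun e => sat_mem hE hr2 (s e) (t e) (perm e)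
  set f : ι → ℝ := fun e => E (P325u.sat (s e) (t e) (perm e)) with hfdef
  have hf1 : ∀ e, f e ≤ 1 := fun e => (hf e).2
  set v := s0 ^ 2 - s0 ^ 3 with hvdef
  have hv : 0 < v := by
    have h1 : v = s0 ^ 2 * (1 - s0) := by rw [hvdef]; ring
    rw [h1]
    have : 0 < 1 - s0 := by linarith
    positivity
  have hRND : RND s t perm (fun e => s0 ^ 2 ≤ f e) J Q v := by
    intro w hw hwG htr
    obtain ⟨x, hx⟩ := hSOS w hw htr
    refine ⟨x, le_trans ?_ hx⟩
    have h1 : s0 ^ 2 * ∑ e, w e ≤ ∑ e, w e * f e := by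
      rw [Finset.mul_sum]
      refine Finset.sum_le_sum fun e _ => ?_
      by_cases h : w e = 0
      · rw [h]
        simp
      · have := mul_le_mul_of_nonneg_left (hwG e h) (hw e)
        linarith
    rw [hvdef, sub_mul]
    linarith
  classical
  set w0 : ι → ℝ := fun e => if s0 ^ 2 ≤ f e then 1 else 0 with hw0def
  have hw0 : ∀ e, 0 ≤ w0 e := by
    intro e
    simp only [hw0def]
    split_ifs <;> norm_num
  have hw01 : ∀ e, w0 e ≤ (fun _ => (1 : ℝ)) e := by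
    intro e
    simp only [hw0def]
    split_ifs <;> norm_num
  have hw0G : ∀ e, w0 e ≠ 0 → s0 ^ 2 ≤ f e := by
    intro e h
    by_contra hcon
    apply h
    simp only [hw0def]
    rw [if_neg hcon]
  have hm : (∑ _e : ι, (1 : ℝ)) = Fintype.card ι := by simp
  have hfw : ∑ e, f e ≤ ∑ e, w0 e + s0 ^ 2 * ((Fintype.card ι : ℝ) - ∑ e, w0 e) := by
    rw [← hm, ← Finset.sum_sub_distrib, Finset.mul_sum, ← Finset.sum_add_distrib]
    refine Finset.sum_le_sum fun e _ => ?_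
    simp only [hw0def]
    split_ifs with h
    · have := hf1 e
      linarith
    · have := not_le.1 h
      linarith
  have hW : s0 / 2 * Fintype.card ι ≤ ∑ e, w0 e := by
    have h1 := hsum.trans hfw
    have h2 : 0 < 1 - s0 := by linarith
    have h3 : 0 ≤ ∑ e, w0 e := Finset.sum_nonneg fun e _ => hw0 e
    have h4 : (1 - s0) * (s0 * Fintype.card ι) ≤ (1 - s0) * ((1 + s0) * ∑ e, w0 e) := by nlinarith
    have h5 := le_of_mul_le_mul_left h4 h2
    nlinarith
  have hL : Nonempty (V → L) := nonempty_labelings hE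
  obtain ⟨x, hx⟩ := core_main hL perm hside (fun e => s0 ^ 2 ≤ f e) hJ0 hl hl8 hQ hJQ hv hRND w0 hw0
    hw0G
  refine ⟨x, ?_⟩
  have hmono : P325F.sat s t perm w0 x ≤ P325F.sat s t perm (fun _ => 1) x := by
    unfold P325F.sat
    refine Finset.sum_le_sum fun e _ => ?_
    split_ifs
    · exact hw01 e
    · exact le_rfl
  refine le_trans ?_ (hx.trans hmono)
  rw [mul_assoc]
  exact mul_le_mul_of_nonneg_left hW (sq_nonneg _)

/-- The explicit form for threshold rounding. -/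
theorem gen_thr {V ι L : Type} [Fintype V] [DecidableEq V] [Fintype ι] [Fintype L]
    [DecidableEq L] {s t : ι → V} {side : V → Bool} (perm : ι → Equiv.Perm L)
    {E : ((V → L) → ℝ) →ₗ[ℝ] ℝ} {r : ℕ} (hside : ∀ e, side (s e) ≠ side (t e))
    (hE : IsLocalExpectation r E) {s0 : ℝ} (hs0 : 31 / 32 ≤ s0) (hs01 : s0 < 1) {J : ℕ}
    (hJe : Even J) (hJ0 : 0 < J) {Q lam : ℝ} (hl : 0 < lam) (hl8 : lam ≤ 1 / 8)
    (hQ : 2 * (16 / lam ^ 2) ^ 8 ≤ Q)
    (hJQ : Real.log (2 * Fintype.card V / lam) ≤ (1 + lam / 4) ^ J * Real.log Q)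
    (hdeg : 128 * Q * (1 - 16 * (1 - s0))⁻¹ ^ (2 * J) +
      8 * (J : ℝ) ^ 2 * (1 - 16 * (1 - s0))⁻¹ ^ J + 5 ≤ r)
    (hsum : s0 * Fintype.card ι ≤ ∑ e, E (P325u.sat (s e) (t e) (perm e))) :
    ∃ x : V → L, ((Fintype.card V : ℝ) ^ (-lam)) ^ 2 / 32 *
      Fintype.card ι ≤ P325F.sat s t perm (fun _ => 1) x := by
  have hQ1 : 1 ≤ Q := one_le_Q hl hl8 hQ
  have hε0 : 0 ≤ 1 - s0 := by linarith
  have hε1 : 1 - s0 ≤ 1 / 32 := by linarith
  have hpos16 : 0 < 1 - 16 * (1 - s0) := by linarith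
  have hr2 : 2 ≤ r := by
    have h1 : 0 ≤ 128 * Q * (1 - 16 * (1 - s0))⁻¹ ^ (2 * J) := by positivity
    have h3 : 0 ≤ 8 * (J : ℝ) ^ 2 * (1 - 16 * (1 - s0))⁻¹ ^ J := by positivity
    have h2 : (2 : ℝ) ≤ r := by linarith
    exact_mod_cast h2
  have hR := sa_thr (s := s) (t := t) perm hE hJe hJ0 hQ1 hε0 hε1 hdeg
  classical
  obtain ⟨f, hf⟩ : ∃ f : ι → ℝ, (fun e => E (P325u.sat (s e) (t e) (perm e))) = f := ⟨_, rfl⟩
  have hfe : ∀ e, E (P325u.sat (s e) (t e) (perm e)) = f e := fun e => congrFun hf e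
  have hf1 : ∀ e, f e ≤ 1 := fun e => by
    rw [← hfe e]
    exact (sat_mem hE hr2 (s e) (t e) (perm e)).2
  simp only [hfe] at hsum hR
  let w : ι → ℝ := fun e => if 1 - 2 * (1 - s0) ≤ f e then 1 else 0
  have hw0 : ∀ e, 0 ≤ w e := fun e => by
    show 0 ≤ (if 1 - 2 * (1 - s0) ≤ f e then (1 : ℝ) else 0)
    split_ifs <;> norm_num
  have hw1 : ∀ e, w e ≤ 1 := fun e => by
    show (if 1 - 2 * (1 - s0) ≤ f e then (1 : ℝ) else 0) ≤ 1
    split_ifs <;> norm_num
  have hwG : ∀ e, w e ≠ 0 → 1 - 2 * (1 - s0) ≤ f e := fun e he => by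
    by_contra h
    exact he (if_neg h)
  have hwsum : (Fintype.card ι : ℝ) / 2 ≤ ∑ e, w e := by
    have key : ∀ e, 2 * (1 - s0) * (1 - w e) ≤ 1 - f e := by
      intro e
      by_cases h : 1 - 2 * (1 - s0) ≤ f e
      · have : w e = 1 := if_pos h
        rw [this]
        have := hf1 e
        linarith
      · have : w e = 0 := if_neg h
        rw [this]
        linarith
    have h1 := Finset.sum_le_sum fun e (_ : e ∈ Finset.univ) => key e
    rw [← Finset.mul_sum, Finset.sum_sub_distrib, Finset.sum_sub_distrib] at h1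
    simp only [Finset.sum_const, Finset.card_univ, nsmul_eq_mul, mul_one] at h1
    have h2 : 0 < 1 - s0 := by linarith
    have h3 : 2 * (1 - s0) * ((Fintype.card ι : ℝ) - ∑ e, w e) ≤
        2 * (1 - s0) * ((Fintype.card ι : ℝ) / 2) := by linarith
    have h4 := le_of_mul_le_mul_left h3 (by linarith)
    linarith
  obtain ⟨x, hx⟩ := core_main (s := s) (t := t) (nonempty_labelings hE) perm hside
    (fun e => 1 - 2 * (1 - s0) ≤ f e) hJ0 hl hl8 hQ hJQ (by norm_num : (0 : ℝ) < 1 / 2) hR w hw0 hwG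
  refine ⟨x, ?_⟩
  have hsat : P325F.sat s t perm w x ≤ P325F.sat s t perm (fun _ => 1) x := by
    unfold P325F.sat
    refine Finset.sum_le_sum fun e _ => ?_
    split_ifs
    · exact hw1 e
    · exact le_rfl
  refine le_trans ?_ (hx.trans hsat)
  have h1 : (1 / 2 * (Fintype.card V : ℝ) ^ (-lam) / 2) ^ 2 =
      ((Fintype.card V : ℝ) ^ (-lam)) ^ 2 / 16 := by ring
  rw [h1]
  have h2 : 0 ≤ ((Fintype.card V : ℝ) ^ (-lam)) ^ 2 / 16 := by positivity
  have h3 := mul_le_mul_of_nonneg_left hwsum h2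
  linarith

/-- the choice of the number of steps -/
theorem exists_steps {lam u : ℝ} (hl : 0 < lam) (hu : 1 < u) :
    ∃ J : ℕ, Even J ∧ 0 < J ∧ u ≤ (1 + lam / 4) ^ J ∧
      (J : ℝ) ≤ (4 / lam + 1) * Real.log u + 2 := by
  have hlog2 : 0 < Real.log u := Real.log_pos hu
  have h1l : 1 < 1 + lam / 4 := by linarith
  have hlogl : 0 < Real.log (1 + lam / 4) := Real.log_pos h1l
  set J0 : ℝ := Real.log u / Real.log (1 + lam / 4) with hJ0
  have hJ0p : 0 < J0 := div_pos hlog2 hlogl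
  have hc : 0 < ⌈J0 / 2⌉₊ := Nat.ceil_pos.2 (by positivity)
  refine ⟨2 * ⌈J0 / 2⌉₊, even_two_mul _, by omega, ?_, ?_⟩
  · have h3 : J0 ≤ ((2 * ⌈J0 / 2⌉₊ : ℕ) : ℝ) := by
      have := Nat.le_ceil (J0 / 2)
      push_cast
      linarith
    have h4 : u = (1 + lam / 4) ^ J0 := by
      rw [Real.rpow_def_of_pos (by linarith), hJ0, mul_div_cancel₀ _ hlogl.ne',
        Real.exp_log (by linarith)]
    calc u = (1 + lam / 4) ^ J0 := h4
      _ ≤ _ := by
        rw [← Real.rpow_natCast]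
        exact Real.rpow_le_rpow_of_exponent_le h1l.le h3
  · have h3 : ((2 * ⌈J0 / 2⌉₊ : ℕ) : ℝ) ≤ J0 + 2 := by
      have := (Nat.ceil_lt_add_one (by positivity : 0 ≤ J0 / 2)).le
      push_cast
      linarith
    have h4 : J0 ≤ (4 / lam + 1) * Real.log u := by
      rw [hJ0, div_le_iff₀ hlogl]
      have h5 := Real.one_sub_inv_le_log_of_pos (by linarith : 0 < 1 + lam / 4)
      have h6 : 1 ≤ (4 / lam + 1) * (1 - (1 + lam / 4)⁻¹) := by
        have h7 : (4 / lam + 1) * (1 - (1 + lam / 4)⁻¹) = 1 := by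
          field_simp
          ring
        rw [h7]
      have h8 : 1 ≤ (4 / lam + 1) * Real.log (1 + lam / 4) :=
        h6.trans (mul_le_mul_of_nonneg_left h5 (by positivity))
      calc Real.log u = Real.log u * 1 := by ring
        _ ≤ Real.log u * ((4 / lam + 1) * Real.log (1 + lam / 4)) :=
            mul_le_mul_of_nonneg_left h8 hlog2.le
        _ = _ := by ring
    linarith

/-- the condition for the number of steps -/
theorem step_cond {lam n x P : ℝ} (hl : 0 < lam) (hl8 : lam ≤ 1 / 8) (hn : 1 ≤ n) (hx : 0 < x)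
    (hx1 : x ≤ 1) (hP : 1 / x ≤ P) :
    Real.log (2 * n / lam) ≤ P * Real.log (n ^ x * (2 * (16 / lam ^ 2) ^ 8)) := by
  have hn0 : 0 < n := by linarith
  have hln : 0 ≤ Real.log n := Real.log_nonneg hn
  set q : ℝ := 2 * (16 / lam ^ 2) ^ 8 with hq
  have hlam2 : 2 / lam ≤ q := by
    have h1 : 1 ≤ 16 / lam ^ 2 := by
      rw [le_div_iff₀ (by positivity)]
      nlinarith
    have h2 : 16 / lam ^ 2 ≤ (16 / lam ^ 2) ^ 8 := le_self_pow₀ h1 (by norm_num)
    have h3 : 1 / lam ≤ 16 / lam ^ 2 := by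
      rw [div_le_div_iff₀ hl (by positivity)]
      nlinarith
    have h4 : 2 / lam = 2 * (1 / lam) := by ring
    rw [h4, hq]
    linarith
  have hq0 : 0 < q := by rw [hq]; positivity
  have hlogq : Real.log (2 / lam) ≤ Real.log q := Real.log_le_log (by positivity) hlam2
  have hq1 : 1 ≤ q := by
    refine le_trans ?_ hlam2
    rw [le_div_iff₀ hl]
    linarith
  have hlogq0 : 0 ≤ Real.log q := Real.log_nonneg hq1
  have h1 : Real.log (2 * n / lam) = Real.log n + Real.log (2 / lam) := by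
    rw [← Real.log_mul hn0.ne' (by positivity)]
    congr 1
    ring
  have h2 : Real.log (n ^ x * q) = x * Real.log n + Real.log q := by
    rw [Real.log_mul (by positivity) hq0.ne', Real.log_rpow hn0]
  rw [h1, h2]
  have h3 : 0 ≤ x * Real.log n + Real.log q := by positivity
  have h4 : Real.log n + Real.log (2 / lam) ≤ 1 / x * (x * Real.log n + Real.log q) := by
    have h5 : 1 / x * (x * Real.log n + Real.log q) = Real.log n + 1 / x * Real.log q := by
      field_simp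
    rw [h5]
    have h6 : 1 ≤ 1 / x := by rw [le_div_iff₀ hx]; linarith
    nlinarith
  exact h4.trans (mul_le_mul_of_nonneg_right hP h3)

end Pool.Agent.Lib.P325k
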