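import Pool.Agent.Lib.P325h.Sos
import Pool.Agent.Lib.P325u.Main

/-!
# Two simple estimates: few vertices, and stars
-/

set_option autoImplicit false

open Finset Pool.Agent.Lib.P325F

namespace Pool.Agent.Lib.P325k

open Pool.Agent.Lib.P325h

variable {V ι L : Type} [Fintype V] [DecidableEq V] [Fintype ι] [Fintype L] [DecidableEq L]
  {s t : ι → V}

theorem sat_one_eq (perm : ι → Equiv.Perm L) (x : V → L) :
    P325F.sat s t perm (fun _ => 1) x = ∑ e, P325u.sat (s e) (t e) (perm e) x := by
  classical
  unfold P325F.sat P325u.sat Good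
  refine Finset.sum_congr rfl fun e _ => ?_
  by_cases h : perm e (x (s e)) = x (t e)
  · simp only [h, if_true]
  · simp only [h, if_false]

/-- If the degree is at least the number of vertices then the solution is an average of
labellings. -/
theorem exact_bound (perm : ι → Equiv.Perm L) {E : ((V → L) → ℝ) →ₗ[ℝ] ℝ} {r : ℕ}
    (hE : IsLocalExpectation r E) (hr : Fintype.card V ≤ r) {s0 : ℝ}
    (hsum : s0 * Fintype.card ι ≤ ∑ e, E (P325u.sat (s e) (t e) (perm e))) :
    ∃ x : V → L, s0 * Fintype.card ι ≤ P325F.sat s t perm (fun _ => 1) x := by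
  have hL : Nonempty (V → L) := nonempty_labelings hE
  obtain ⟨x, hx⟩ := Finite.exists_max (fun x : V → L => P325F.sat s t perm (fun _ => 1) x)
  refine ⟨x, hsum.trans ?_⟩
  set M := P325F.sat s t perm (fun _ => 1) x with hM
  have h := hE.nonneg (fun σ => M - ∑ e, P325u.sat (s e) (t e) (perm e) σ) Finset.univ
    (by rw [Finset.card_univ]; exact hr)
    (by
      intro σ σ' h
      have : σ = σ' := funext fun v => h v (by simp)
      rw [this])
    (fun σ => by
      have := hx σ
      rw [sat_one_eq] at this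
      show 0 ≤ M - ∑ e, P325u.sat (s e) (t e) (perm e) σ
      linarith)
  have h2 : (fun σ => M - ∑ e, P325u.sat (s e) (t e) (perm e) σ) =
      M • (fun _ => (1 : ℝ)) - ∑ e, P325u.sat (s e) (t e) (perm e) := by
    funext σ
    simp only [Pi.sub_apply, Pi.smul_apply, smul_eq_mul, mul_one, Finset.sum_apply]
  rw [h2, map_sub, map_smul, hE.one, map_sum, smul_eq_mul, mul_one] at h
  linarith

/-- One star: the edges that leave `u`. -/
theorem star_bound [Nonempty L] (perm : ι → Equiv.Perm L) (hst : ∀ e, s e ≠ t e)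
    {E : ((V → L) → ℝ) →ₗ[ℝ] ℝ} {r : ℕ} (hE : IsLocalExpectation r E) (hr : 2 ≤ r) (u : V) :
    ∃ x : V → L, ∑ e ∈ univ.filter (fun e => s e = u), E (P325u.sat (s e) (t e) (perm e)) ≤
      P325F.sat s t perm (fun _ => 1) x := by
  classical
  -- the number of edges from `u` to `w` satisfied by the labels `a`, `b`
  let c : V → L → L → ℝ := fun w a b =>
    ∑ e ∈ univ.filter (fun e => s e = u ∧ t e = w), if perm e a = b then 1 else 0
  have hb : ∀ w a, ∃ b, ∀ b', c w a b' ≤ c w a b := fun w a => Finite.exists_max (c w a)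
  choose b hb using hb
  -- the best label of the centre
  obtain ⟨a, ha⟩ := Finite.exists_max (fun a => ∑ w, c w a (b w a))
  refine ⟨fun w => if w = u then a else b w a, ?_⟩
  -- the labelling satisfies all these edges
  have hgood : ∑ w, c w a (b w a) ≤
      P325F.sat s t perm (fun _ => 1) (fun w => if w = u then a else b w a) := by
    rw [sat_one_eq]
    have h1 : ∑ w, c w a (b w a) = ∑ e ∈ univ.filter (fun e => s e = u),
        if perm e a = b (t e) a then (1 : ℝ) else 0 := by
      have h2 : ∀ w, c w a (b w a) = ∑ e ∈ univ.filter (fun e => s e = u),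
          if t e = w then (if perm e a = b (t e) a then (1 : ℝ) else 0) else 0 := by
        intro w
        show ∑ e ∈ univ.filter (fun e => s e = u ∧ t e = w),
          (if perm e a = b w a then (1 : ℝ) else 0) = _
        rw [← Finset.filter_filter, Finset.sum_filter]
        refine Finset.sum_congr rfl fun e _ => ?_
        by_cases h : t e = w
        · simp only [h, if_true]
        · simp only [h, if_false]
      simp_rw [h2]
      rw [Finset.sum_comm]
      refine Finset.sum_congr rfl fun e _ => ?_
      rw [Finset.sum_ite_eq univ (t e)]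
      simp
    rw [h1]
    refine (Finset.sum_le_sum (fun e he => ?_)).trans
      (Finset.sum_le_sum_of_subset_of_nonneg (Finset.filter_subset _ _) (fun e _ _ => ?_))
    · have hs : s e = u := (Finset.mem_filter.1 he).2
      have ht : t e ≠ u := fun h => hst e (by rw [hs, h])
      unfold P325u.sat
      simp only [hs, if_true, if_neg ht]
      exact le_rfl
    · unfold P325u.sat
      split_ifs <;> norm_num
  refine le_trans ?_ hgood
  -- local inequalities
  have h1 : ∑ e ∈ univ.filter (fun e => s e = u), E (P325u.sat (s e) (t e) (perm e)) =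
      ∑ w, E (∑ e ∈ univ.filter (fun e => s e = u ∧ t e = w),
        P325u.sat (s e) (t e) (perm e)) := by
    simp_rw [map_sum]
    have h2 : ∀ w, ∑ e ∈ univ.filter (fun e => s e = u ∧ t e = w),
        E (P325u.sat (s e) (t e) (perm e)) = ∑ e ∈ univ.filter (fun e => s e = u),
          if t e = w then E (P325u.sat (s e) (t e) (perm e)) else 0 := by
      intro w
      rw [← Finset.filter_filter, Finset.sum_filter]
    simp_rw [h2]
    rw [Finset.sum_comm]
    refine Finset.sum_congr rfl fun e _ => ?_
    rw [Finset.sum_ite_eq univ (t e)]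
    simp
  have h3 : ∀ w, E (∑ e ∈ univ.filter (fun e => s e = u ∧ t e = w),
      P325u.sat (s e) (t e) (perm e)) ≤ E (fun σ => c w (σ u) (b w (σ u))) := by
    intro w
    have h4 := hE.nonneg (fun σ => c w (σ u) (b w (σ u)) -
      ∑ e ∈ univ.filter (fun e => s e = u ∧ t e = w), P325u.sat (s e) (t e) (perm e) σ)
      {u, w} ((Finset.card_le_two).trans hr)
      (by
        intro σ σ' h
        have h5 : σ u = σ' u := h u (by simp)
        have h6 : σ w = σ' w := h w (by simp)
        have h7 : ∀ e ∈ univ.filter (fun e => s e = u ∧ t e = w),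
            P325u.sat (s e) (t e) (perm e) σ = P325u.sat (s e) (t e) (perm e) σ' := by
          intro e he
          obtain ⟨h8, h9⟩ := (Finset.mem_filter.1 he).2
          unfold P325u.sat
          rw [h8, h9, h5, h6]
        show c w (σ u) (b w (σ u)) - _ = c w (σ' u) (b w (σ' u)) - _
        rw [h5, Finset.sum_congr rfl h7])
      (fun σ => by
        have h5 : ∑ e ∈ univ.filter (fun e => s e = u ∧ t e = w),
            P325u.sat (s e) (t e) (perm e) σ = c w (σ u) (σ w) := by
          refine Finset.sum_congr rfl fun e he => ?_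
          obtain ⟨h8, h9⟩ := (Finset.mem_filter.1 he).2
          unfold P325u.sat
          rw [h8, h9]
        show 0 ≤ c w (σ u) (b w (σ u)) - ∑ e ∈ univ.filter (fun e => s e = u ∧ t e = w),
          P325u.sat (s e) (t e) (perm e) σ
        rw [h5]
        have := hb w (σ u) (σ w)
        linarith)
    have h5 : (fun σ : V → L => c w (σ u) (b w (σ u)) -
        ∑ e ∈ univ.filter (fun e => s e = u ∧ t e = w), P325u.sat (s e) (t e) (perm e) σ) =
        (fun σ => c w (σ u) (b w (σ u))) -
          ∑ e ∈ univ.filter (fun e => s e = u ∧ t e = w), P325u.sat (s e) (t e) (perm e) := by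
      funext σ
      simp only [Pi.sub_apply, Finset.sum_apply]
    rw [h5, map_sub] at h4
    linarith
  rw [h1]
  refine (Finset.sum_le_sum fun w _ => h3 w).trans ?_
  rw [← map_sum]
  have h6 := hE.nonneg (fun σ => ∑ w, c w a (b w a) - ∑ w, c w (σ u) (b w (σ u))) {u}
    (by rw [Finset.card_singleton]; omega)
    (by
      intro σ σ' h
      have h5 : σ u = σ' u := h u (by simp)
      show _ - ∑ w, c w (σ u) (b w (σ u)) = _ - ∑ w, c w (σ' u) (b w (σ' u))
      rw [h5])
    (fun σ => by
      have := ha (σ u)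
      show 0 ≤ ∑ w, c w a (b w a) - ∑ w, c w (σ u) (b w (σ u))
      linarith)
  have h7 : (fun σ : V → L => ∑ w, c w a (b w a) - ∑ w, c w (σ u) (b w (σ u))) =
      (∑ w, c w a (b w a)) • (fun _ => (1 : ℝ)) - ∑ w, (fun σ => c w (σ u) (b w (σ u))) := by
    funext σ
    simp only [Pi.sub_apply, Pi.smul_apply, smul_eq_mul, mul_one, Finset.sum_apply]
  rw [h7, map_sub, map_smul, hE.one, smul_eq_mul, mul_one] at h6
  linarith

/-- The best star has a fraction `s0 / n`. -/
theorem stars (perm : ι → Equiv.Perm L) (hst : ∀ e, s e ≠ t e)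
    {E : ((V → L) → ℝ) →ₗ[ℝ] ℝ} {r : ℕ} (hE : IsLocalExpectation r E) (hr : 2 ≤ r) {s0 : ℝ}
    (hV : 0 < Fintype.card V)
    (hsum : s0 * Fintype.card ι ≤ ∑ e, E (P325u.sat (s e) (t e) (perm e))) :
    ∃ x : V → L, s0 / Fintype.card V * Fintype.card ι ≤ P325F.sat s t perm (fun _ => 1) x := by
  classical
  obtain ⟨σ0⟩ := nonempty_labelings hE
  obtain ⟨v0⟩ : Nonempty V := Fintype.card_pos_iff.1 hV
  have hL : Nonempty L := ⟨σ0 v0⟩
  have hVr : (0 : ℝ) < Fintype.card V := by exact_mod_cast hV
  by_contra hcon
  push Not at hcon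
  have h1 : ∀ u, ∑ e ∈ univ.filter (fun e => s e = u), E (P325u.sat (s e) (t e) (perm e)) <
      s0 / Fintype.card V * Fintype.card ι := by
    intro u
    obtain ⟨x, hx⟩ := star_bound perm hst hE hr u
    exact hx.trans_lt (hcon x)
  have h2 : ∑ u, ∑ e ∈ univ.filter (fun e => s e = u), E (P325u.sat (s e) (t e) (perm e)) =
      ∑ e, E (P325u.sat (s e) (t e) (perm e)) :=
    Finset.sum_fiberwise _ _ _
  have h3 : ∑ u : V, ∑ e ∈ univ.filter (fun e => s e = u),
      E (P325u.sat (s e) (t e) (perm e)) < ∑ _u : V, s0 / Fintype.card V * Fintype.card ι :=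
    Finset.sum_lt_sum_of_nonempty ⟨v0, Finset.mem_univ _⟩ (fun u _ => h1 u)
  rw [h2, Finset.sum_const, Finset.card_univ, nsmul_eq_mul] at h3
  have h4 : (Fintype.card V : ℝ) * (s0 / Fintype.card V * Fintype.card ι) =
      s0 * Fintype.card ι := by
    field_simp
  rw [h4] at h3
  linarith

end Pool.Agent.Lib.P325k
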