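import Pool.Agent.Lib.P325k.Cases
import Pool.Agent.Lib.P325k.Small
import Pool.Agent.Lib.P325h.Main
import Pool.Agent.Lib.P325v.FinAll

/-!
# All gaps, one explicit bound (Sherali-Adams)

For `0 < δ < s < 1`, `D = log (1 / δ)`, `x = log (1 / s) / min D (D ^ 2)`: degree
`(1 + 1 / x) ^ 16 * n ^ (C x log (2 + 1 / x))` suffices for the gap `(s, δ)`.
-/

set_option autoImplicit false

open Finset Pool.Agent.Lib.P325F

namespace Pool.Agent.Lib.P325k

open Pool.Agent.Lib.P325h
open Pool.Agent.Lib.P325v.FinAll (min_le)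

/-- `C x log (2 + 1 / x) ≥ 1` for `x ≥ 1 / c`. -/
theorem large_x {C x : ℝ} (hC : (x ≥ 1 / 1600 ∧ 250 ≤ C) ∨ (x ≥ 1 / 20000 ∧ 2500 ≤ C) ∨
    (x ≥ 1 / 22000 ∧ 22000 ≤ C)) : 1 ≤ C * x * Real.log (2 + 1 / x) := by
  have hx0 : 0 < x := by
    rcases hC with h | h | h <;> linarith [h.1]
  have hinv : 0 < 1 / x := by positivity
  have hL : 0.693 ≤ Real.log (2 + 1 / x) :=
    log_ge 1 0.693 (by linarith) (by norm_num)
  have hstep : ∀ (a : ℝ) (k : ℕ) (c : ℝ), 0 < a → x < 1 / a → (2 : ℝ) ^ k ≤ 2 + a →
      c ≤ (k : ℝ) * 0.693 → c ≤ Real.log (2 + 1 / x) := by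
    intro a k c ha hxa hk hc
    apply log_ge k c _ hc
    have h1 : a < 1 / x := by
      rw [lt_div_iff₀ hx0]
      rw [lt_div_iff₀ ha] at hxa
      linarith
    linarith
  rcases hC with ⟨h, hC⟩ | ⟨h, hC⟩ | ⟨h, hC⟩
  · have key : 1 ≤ 250 * x * Real.log (2 + 1 / x) := by
      rcases le_or_gt (1 / 100) x with h1 | h1
      · nlinarith
      · have h2 := hstep 100 6 4.15 (by norm_num) h1 (by norm_num) (by norm_num)
        rcases le_or_gt (1 / 1000) x with h3 | h3
        · nlinarith
        · have h4 := hstep 1000 9 6.23 (by norm_num) h3 (by norm_num) (by norm_num)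
          rcases le_or_gt (1 / 1500) x with h5 | h5
          · nlinarith
          · have h6 := hstep 1500 10 6.93 (by norm_num) h5 (by norm_num) (by norm_num)
            nlinarith
    have : 0 < x * Real.log (2 + 1 / x) := by positivity
    nlinarith
  · have key : 1 ≤ 2500 * x * Real.log (2 + 1 / x) := by
      rcases le_or_gt (1 / 1600) x with h1 | h1
      · nlinarith
      · have h2 := hstep 1600 10 6.93 (by norm_num) h1 (by norm_num) (by norm_num)
        rcases le_or_gt (1 / 16500) x with h3 | h3
        · nlinarith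
        · have h4 := hstep 16500 14 9.7 (by norm_num) h3 (by norm_num) (by norm_num)
          nlinarith
    have : 0 < x * Real.log (2 + 1 / x) := by positivity
    nlinarith
  · have key : 1 ≤ 22000 * x * Real.log (2 + 1 / x) := by
      rcases le_or_gt (1 / 1000) x with h1 | h1
      · nlinarith
      · have h2 := hstep 1000 9 6.23 (by norm_num) h1 (by norm_num) (by norm_num)
        nlinarith
    have : 0 < x * Real.log (2 + 1 / x) := by positivity
    nlinarith

/-- The degree of the gap problem `(s, δ)`. -/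
theorem sa_gap (s δ D x C : ℝ) (hδ : 0 < δ) (hδs : δ < s) (hs1 : s < 1)
    (hD : D = Real.log (1 / δ)) (hx : x = Real.log (1 / s) / min D (D ^ 2))
    (hC : (s ≤ 31 / 32 ∧ C = 250) ∨ (δ ≤ 1 / 1024 ∧ C = 2500) ∨ C = 22000)
    (U W Ω ι : Type) [Fintype U] [Fintype W] [Fintype Ω] [Fintype ι]
    (I : P325x.Game U W Ω ι) (r : ℕ) (E : ((U ⊕ W → Ω) → ℝ) →ₗ[ℝ] ℝ)
    (hE : IsLocalExpectation r E)
    (hr : (1 + 1 / x) ^ 16 * ((Fintype.card U : ℝ) + Fintype.card W) ^
      (C * x * Real.log (2 + 1 / x)) ≤ r)
    (hval : s ≤ E (fun z => I.satFrac (fun u => z (Sum.inl u)) (fun v => z (Sum.inr v)))) :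
    δ ≤ I.value := by
  have hs0 : 0 < s := hδ.trans hδs
  set A := Real.log (1 / s) with hAdef
  have hAs : A = -Real.log s := by rw [hAdef, one_div, Real.log_inv]
  have hDs : D = -Real.log δ := by rw [hD, one_div, Real.log_inv]
  have hA : 0 < A := by
    have := Real.log_neg hs0 hs1
    linarith
  have hAD : A < D := by
    have := Real.log_lt_log hδ hδs
    linarith
  have hD0 : 0 < D := by linarith
  have hmin : 0 < min D (D ^ 2) := lt_min hD0 (by positivity)
  have hx0 : 0 < x := by rw [hx]; positivity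
  have hkx : 0 < 1 / x := by positivity
  have hL : 0.693 ≤ Real.log (2 + 1 / x) := log_ge 1 0.693 (by linarith) (by norm_num)
  have hC0 : 250 ≤ C := by
    rcases hC with h | h | h <;> linarith [h]
  have hb0 : 0 ≤ C * x * Real.log (2 + 1 / x) := by
    rw [mul_assoc]; positivity
  -- the game has an edge
  classical
  have hm : 0 < Fintype.card ι := by
    by_contra hcon
    have h0 : Fintype.card ι = 0 := by omega
    have h1 : (fun z : U ⊕ W → Ω =>
        I.satFrac (fun u => z (Sum.inl u)) (fun v => z (Sum.inr v))) = 0 := by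
      funext z
      unfold P325x.Game.satFrac
      rw [h0]
      simp
    rw [h1, map_zero] at hval
    linarith
  have hm' : (0 : ℝ) < Fintype.card ι := by exact_mod_cast hm
  have hι : Nonempty ι := Fintype.card_pos_iff.1 hm
  obtain ⟨i0⟩ := hι
  set n : ℝ := (Fintype.card U : ℝ) + Fintype.card W with hn
  have hcard : n = Fintype.card (U ⊕ W) := by
    rw [Fintype.card_sum, hn]; push_cast; ring
  have hVpos : 0 < Fintype.card (U ⊕ W) := Fintype.card_pos_iff.2 ⟨Sum.inl (I.src i0)⟩
  have hn1 : 1 ≤ n := by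
    rw [hcard]
    exact_mod_cast hVpos
  have hsum : s * Fintype.card ι ≤ ∑ e, E (P325u.sat (Sum.inl (I.src e) : U ⊕ W)
      (Sum.inr (I.dst e)) (I.perm e)) := by
    have h1 : (fun z : U ⊕ W → Ω =>
        I.satFrac (fun u => z (Sum.inl u)) (fun v => z (Sum.inr v))) =
        (Fintype.card ι : ℝ)⁻¹ • ∑ e, P325u.sat (Sum.inl (I.src e) : U ⊕ W)
          (Sum.inr (I.dst e)) (I.perm e) := by
      funext z
      have h2 := P325v.satFrac_card I hm z
      rw [Pi.smul_apply, Finset.sum_apply, smul_eq_mul, ← div_eq_inv_mul, eq_div_iff hm'.ne', h2,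
        sat_one_eq]
    rw [h1, map_smul, map_sum, smul_eq_mul, ← div_eq_inv_mul, le_div_iff₀ hm'] at hval
    exact hval
  -- it is enough to find a labelling
  have hfin : (∃ y : U ⊕ W → Ω, δ * Fintype.card ι ≤ P325F.sat
      (fun e => (Sum.inl (I.src e) : U ⊕ W)) (fun e => Sum.inr (I.dst e)) I.perm
      (fun _ => 1) y) → δ ≤ I.value := by
    rintro ⟨z, hz⟩
    rw [← P325v.satFrac_card I hm z] at hz
    exact (le_of_mul_le_mul_right hz hm').trans (P325u.satFrac_le_value I _ _)
  have hpow1 : 1 ≤ n ^ (C * x * Real.log (2 + 1 / x)) := Real.one_le_rpow hn1 hb0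
  have h16 : 1 ≤ (1 + 1 / x) ^ 16 := one_le_pow₀ (by linarith)
  -- the degree is at least the number of vertices
  have hexact : n ≤ r → δ ≤ I.value := by
    intro h
    apply hfin
    have h1 : Fintype.card (U ⊕ W) ≤ r := by
      rw [hcard] at h
      exact_mod_cast h
    obtain ⟨y, hy⟩ := exact_bound (s := fun e => (Sum.inl (I.src e) : U ⊕ W))
      (t := fun e => Sum.inr (I.dst e)) I.perm hE h1 hsum
    exact ⟨y, (mul_le_mul_of_nonneg_right hδs.le hm'.le).trans hy⟩
  have hlarge : 1 ≤ C * x * Real.log (2 + 1 / x) → δ ≤ I.value := by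
    intro h
    apply hexact
    calc n = n ^ (1 : ℝ) := (Real.rpow_one _).symm
      _ ≤ n ^ (C * x * Real.log (2 + 1 / x)) := Real.rpow_le_rpow_of_exponent_le hn1 h
      _ ≤ (1 + 1 / x) ^ 16 * n ^ (C * x * Real.log (2 + 1 / x)) := by nlinarith
      _ ≤ r := hr
  have hxD : 1 ≤ D → x = A / D := by
    intro h
    rw [hx, min_eq_left (by nlinarith)]
  -- the stars
  have hstar : 2 ≤ 1 / x → Real.log n ≤ D - A → δ ≤ I.value := by
    intro hk h
    apply hfin
    have hr2 : 2 ≤ r := by
      have h1 : (2 : ℝ) ≤ r := by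
        refine le_trans ?_ hr
        have h2 : (1 + 1 / x) ^ 1 ≤ (1 + 1 / x) ^ 16 :=
          pow_le_pow_right₀ (by linarith) (by norm_num)
        nlinarith
      exact_mod_cast h1
    obtain ⟨y, hy⟩ := stars (s := fun e => (Sum.inl (I.src e) : U ⊕ W))
      (t := fun e => Sum.inr (I.dst e)) I.perm (fun e => Sum.inl_ne_inr) hE hr2 hVpos hsum
    refine ⟨y, le_trans (mul_le_mul_of_nonneg_right ?_ hm'.le) hy⟩
    rw [← hcard, le_div_iff₀ (by linarith)]
    have h1 : δ * n = Real.exp (Real.log δ + Real.log n) := by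
      rw [Real.exp_add, Real.exp_log hδ, Real.exp_log (by linarith)]
    rw [h1, ← Real.exp_log hs0]
    apply Real.exp_le_exp.2
    linarith
  have hside : ∀ e, (fun v : U ⊕ W => v.isLeft) (Sum.inl (I.src e)) ≠
      (fun v : U ⊕ W => v.isLeft) (Sum.inr (I.dst e)) := by
    intro e
    simp
  rcases le_or_gt s (31 / 32) with hs | hs
  · -- independent rounding
    rcases le_or_gt (1 / 1600) x with hxl | hxs
    · exact hlarge (large_x (Or.inl ⟨hxl, hC0⟩))
    have hA32 : 1 / 32 ≤ A := by
      have := Real.log_le_sub_one_of_pos hs0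
      linarith
    have hD1 : 1 ≤ D := by
      by_contra hcon
      push Not at hcon
      have h1 : min D (D ^ 2) ≤ 1 := (min_le_left _ _).trans hcon.le
      have h2 : A / 1 ≤ x := by
        rw [hx]
        exact div_le_div_of_nonneg_left hA.le hmin h1
      linarith
    rcases le_or_gt (Real.log n) (D - A) with hnl | hnl
    · exact hstar (by rw [le_div_iff₀ hx0]; linarith) hnl
    · apply hfin
      refine indep_case (side := fun v : U ⊕ W => v.isLeft) I.perm hside hE (x := x) (A := A)
        (B := D) (n := n) hδ hδs hs hAs hDs (hxD hD1) hxs.le hcard hn1 hnl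
        (le_trans ?_ hr) hsum
      apply mul_le_mul_of_nonneg_left _ (by positivity)
      apply Real.rpow_le_rpow_of_exponent_le hn1
      have h1 : 0 ≤ x * Real.log (2 + 1 / x) := by positivity
      nlinarith
  · rcases le_or_gt δ (1 / 1024) with hd | hd
    · -- threshold rounding
      have hC1 : 2500 ≤ C := by
        rcases hC with h | h | h
        · exact absurd h.1 (not_le.2 hs)
        · linarith [h.2]
        · linarith
      rcases le_or_gt (1 / 20000) x with hxl | hxs
      · exact hlarge (large_x (Or.inr (Or.inl ⟨hxl, hC1⟩)))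
      have hD1 : 1 ≤ D := by
        have h1 := log_ge 10 (u := 1 / δ) 6.93 (by rw [le_div_iff₀ hδ]; linarith) (by norm_num)
        linarith
      rcases le_or_gt (Real.log n) (D - A) with hnl | hnl
      · exact hstar (by rw [le_div_iff₀ hx0]; linarith) hnl
      · apply hfin
        refine thr_case (side := fun v : U ⊕ W => v.isLeft) I.perm hside hE (x := x) (A := A)
          (B := D) (n := n) hδ hd hs.le hs1 hAs hDs (hxD hD1) hxs.le hcard hn1 hnl
          (le_trans ?_ hr) hsum
        apply mul_le_mul_of_nonneg_left _ (by positivity)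
        apply Real.rpow_le_rpow_of_exponent_le hn1
        have h1 : 0 ≤ x * Real.log (2 + 1 / x) := by positivity
        nlinarith
    · -- both near one
      have hC1 : C = 22000 := by
        rcases hC with h | h | h
        · exact absurd h.1 (not_le.2 hs)
        · exact absurd h.1 (not_le.2 hd)
        · exact h
      rcases le_or_gt (1 / 22000) x with hxl | hxs
      · exact hlarge (large_x (Or.inr (Or.inr ⟨hxl, hC1.ge⟩)))
      have hD7 : D ≤ 6.9315 := by
        have h1 : Real.log (1 / 1024) < Real.log δ := Real.log_lt_log (by norm_num) hd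
        have h2 : Real.log (1 / 1024) = -(10 * Real.log 2) := by
          rw [one_div, Real.log_inv]
          have : (1024 : ℝ) = 2 ^ (10 : ℕ) := by norm_num
          rw [this, Real.log_pow]
          push_cast
          ring
        have h3 := Real.log_two_lt_d9
        linarith
      have hδe : δ = Real.exp (-D) := by rw [hDs, neg_neg, Real.exp_log hδ]
      have hmm := min_le hD0 hD7 hδe
      have heA : 1 - s ≤ A := by
        have := Real.log_le_sub_one_of_pos hs0
        linarith
      have hAy : A = x * min D (D ^ 2) := by rw [hx, div_mul_cancel₀ _ hmin.ne']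
      set z : ℝ := 22000 * x with hz
      have hz0 : 0 < z := by positivity
      have hz1 : z ≤ 1 := by rw [hz]; linarith
      have hnear : 3136 * (1 - s) ≤ (1 - δ) ^ 2 * z := by
        calc 3136 * (1 - s) ≤ 3136 * (x * min D (D ^ 2)) := by linarith
          _ = x * (3136 * min D (D ^ 2)) := by ring
          _ ≤ x * (22000 * (1 - δ) ^ 2) := mul_le_mul_of_nonneg_left hmm hx0.le
          _ = (1 - δ) ^ 2 * z := by rw [hz]; ring
      have hι' : Nonempty ι := ⟨i0⟩
      have hmain := sa_main (1 - s) z (by linarith) hz0 hz1 U W Ω ι I r ?_ E hE (by linarith)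
      · have h1 : (1 - s) / z ≤ ((1 - δ) / 56) ^ 2 := by
          rw [div_le_iff₀ hz0, div_pow]
          linarith
        have h2 : √((1 - s) / z) ≤ (1 - δ) / 56 := by
          rw [Real.sqrt_le_left (by linarith)]
          exact h1
        linarith
      · refine le_trans ?_ hr
        rw [← hn]
        have h1 : (22000 : ℝ) ≤ 1 + 1 / x := by
          have : 22000 < 1 / x := by rw [lt_div_iff₀ hx0]; linarith
          linarith
        have h2 : (5000 : ℝ) ≤ (1 + 1 / x) ^ 16 := by
          calc (5000 : ℝ) ≤ 22000 ^ 16 := by norm_num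
            _ ≤ (1 + 1 / x) ^ 16 := pow_le_pow_left₀ (by norm_num) h1 16
        apply mul_le_mul h2 _ (by positivity) (by positivity)
        apply Real.rpow_le_rpow_of_exponent_le hn1
        rw [hC1, hz]
        have h3 : Real.log (1 / (22000 * x)) = Real.log (1 / x) - Real.log 22000 := by
          rw [← Real.log_div (by positivity) (by norm_num)]
          congr 1
          rw [div_div, mul_comm]
        have h4 := log_ge 2 (u := 22000) 1 (by norm_num) (by norm_num)
        have h5 : Real.log (1 / x) ≤ Real.log (2 + 1 / x) :=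
          Real.log_le_log (by positivity) (by linarith)
        apply mul_le_mul_of_nonneg_left _ (by positivity)
        linarith

end Pool.Agent.Lib.P325k
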