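import Pool.Agent.Lib.P325k.Gen

/-!
# The parameters
-/

set_option autoImplicit false

namespace Pool.Agent.Lib.P325k

theorem log_ge (k : ℕ) {u : ℝ} (c : ℝ) (h : (2 : ℝ) ^ k ≤ u) (hc : c ≤ (k : ℝ) * 0.693) :
    c ≤ Real.log u := by
  have h1 := Real.log_le_log (by positivity) h
  rw [Real.log_pow] at h1
  have h2 := Real.log_two_gt_d9
  have h3 : (0 : ℝ) ≤ k := Nat.cast_nonneg k
  nlinarith

theorem lam_choice {D l : ℝ} (hD : 0 < D) (hl : 0 < l) :
    ∃ lam : ℝ, 0 < lam ∧ lam ≤ 1 / 8 ∧ lam * l ≤ D ∧ 1 / lam ≤ 8 + l / D ∧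
      ∀ A M : ℝ, 0 ≤ A → 8 * A ≤ M → A * l / D ≤ M → A / lam ≤ M := by
  rcases le_total (1 / 8) (D / l) with h | h
  · refine ⟨1 / 8, by norm_num, le_rfl, ?_, ?_, ?_⟩
    · rw [le_div_iff₀ hl] at h
      exact h
    · have : 0 < l / D := by positivity
      norm_num
      linarith
    · intro A M _ h1 _
      linarith
  · refine ⟨D / l, by positivity, h, ?_, ?_, ?_⟩
    · exact le_of_eq (div_mul_cancel₀ _ hl.ne')
    · rw [one_div_div]
      linarith
    · intro A M _ _ h2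
      rw [div_div_eq_mul_div]
      exact h2

/-- the estimate of the degree, independent rounding -/
theorem deg_indep {A X k Lg L2 g J : ℝ} {e6 e3 : ℝ} (hX : 0 ≤ X) (hk : 1600 ≤ k)
    (hLg : 7.3 ≤ Lg) (hLk : Lg ≤ k) (hL2 : Lg ≤ L2) (hA0 : 0 ≤ A) (hA : A ≤ 1.001 * X)
    (hg0 : 8 ≤ g) (hg : g ≤ 8 + 80 * X) (hAg : A * g ≤ 8.01 * X) (hJ0 : 0 ≤ J)
    (hJ : J ≤ (4 * g + 1) * Lg + 2) (he6 : e6 = Real.exp (6 * A * J))
    (he3 : e3 = Real.exp (3 * A * J)) :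
    2 * ((Real.exp X * (2 ^ 33 * g ^ 16)) * e6) + 8 * J ^ 2 * e3 + 5 ≤
      (1 + k) ^ 16 * Real.exp (250 * X * L2) := by
  have h3 : e3 ≤ e6 := by
    rw [he3, he6]
    apply Real.exp_le_exp.2
    have : 0 ≤ A * J := by positivity
    nlinarith
  have hgx : g ≤ 8 * Real.exp (10 * X) := by
    have := Real.add_one_le_exp (10 * X)
    linarith
  have hg16 : g ^ 16 ≤ 2 ^ 48 * Real.exp (160 * X) := by
    calc g ^ 16 ≤ (8 * Real.exp (10 * X)) ^ 16 := pow_le_pow_left₀ (by linarith) hgx 16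
      _ = 2 ^ 48 * Real.exp (160 * X) := by
          rw [mul_pow, ← Real.exp_nat_mul]
          congr 1
          · norm_num
          · congr 1
            push_cast
            ring
  have hJ5 : J ≤ 5 * g * Lg := by nlinarith
  have hJk : J ≤ 40 * k * Real.exp (10 * X) := by
    calc J ≤ 5 * g * Lg := hJ5
      _ ≤ 5 * (8 * Real.exp (10 * X)) * k := by gcongr
      _ = _ := by ring
  have hJ2 : J ^ 2 ≤ 1600 * k ^ 2 * Real.exp (20 * X) := by
    calc J ^ 2 ≤ (40 * k * Real.exp (10 * X)) ^ 2 := pow_le_pow_left₀ hJ0 hJk 2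
      _ = 1600 * k ^ 2 * Real.exp (20 * X) := by
          rw [mul_pow, mul_pow, ← Real.exp_nat_mul]
          congr 1
          · ring
          · congr 1
            push_cast
            ring
  have h6 : 6 * A * J ≤ 198.3 * X * Lg + 12.1 * X := by
    have h1 : 6 * A * J ≤ 6 * A * ((4 * g + 1) * Lg + 2) :=
      mul_le_mul_of_nonneg_left hJ (by positivity)
    have h2 : 6 * A * ((4 * g + 1) * Lg + 2) = 24 * (A * g) * Lg + 6 * A * Lg + 12 * A := by ring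
    have h4 : (A * g) * Lg ≤ 8.01 * X * Lg := mul_le_mul_of_nonneg_right hAg (by linarith)
    have h5 : A * Lg ≤ 1.001 * X * Lg := mul_le_mul_of_nonneg_right hA (by linarith)
    rw [h2] at h1
    have h7 : 0 ≤ X * Lg := by positivity
    nlinarith
  have hE : 0 < Real.exp (250 * X * L2) := Real.exp_pos _
  have hXL : X * Lg ≤ X * L2 := mul_le_mul_of_nonneg_left hL2 hX
  have hX7 : 7.3 * X ≤ X * Lg := by nlinarith
  have hmain : Real.exp X * Real.exp (160 * X) * e6 ≤ Real.exp (250 * X * L2) := by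
    rw [he6, ← Real.exp_add, ← Real.exp_add]
    apply Real.exp_le_exp.2
    nlinarith
  have hmain2 : Real.exp (20 * X) * e3 ≤ Real.exp (250 * X * L2) := by
    refine le_trans ?_ hmain
    have h1 : Real.exp (20 * X) ≤ Real.exp X * Real.exp (160 * X) := by
      rw [← Real.exp_add]
      apply Real.exp_le_exp.2
      linarith
    have h2 : 0 ≤ e3 := by rw [he3]; exact (Real.exp_pos _).le
    exact mul_le_mul h1 h3 h2 (by positivity)
  have hone : 1 ≤ Real.exp (250 * X * L2) := by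
    apply Real.one_le_exp
    have : 0 ≤ X * L2 := by linarith
    linarith
  have he60 : 0 ≤ e6 := by rw [he6]; exact (Real.exp_pos _).le
  have t1 : 2 * ((Real.exp X * (2 ^ 33 * g ^ 16)) * e6) ≤ 2 ^ 82 * Real.exp (250 * X * L2) := by
    calc 2 * ((Real.exp X * (2 ^ 33 * g ^ 16)) * e6)
        ≤ 2 * ((Real.exp X * (2 ^ 33 * (2 ^ 48 * Real.exp (160 * X)))) * e6) := by gcongr
      _ = 2 ^ 82 * (Real.exp X * Real.exp (160 * X) * e6) := by ring
      _ ≤ _ := mul_le_mul_of_nonneg_left hmain (by positivity)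
  have t2 : 8 * J ^ 2 * e3 ≤ 12800 * k ^ 2 * Real.exp (250 * X * L2) := by
    have h2 : 0 ≤ e3 := by rw [he3]; exact (Real.exp_pos _).le
    calc 8 * J ^ 2 * e3 ≤ 8 * (1600 * k ^ 2 * Real.exp (20 * X)) * e3 := by gcongr
      _ = 12800 * k ^ 2 * (Real.exp (20 * X) * e3) := by ring
      _ ≤ _ := mul_le_mul_of_nonneg_left hmain2 (by positivity)
  have hk16 : 2 ^ 82 + 12800 * k ^ 2 + 5 ≤ (1 + k) ^ 16 := by
    have h1 : k ^ 16 ≤ (1 + k) ^ 16 := pow_le_pow_left₀ (by linarith) (by linarith) 16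
    have h2 : k ^ 16 = k ^ 2 * k ^ 14 := by ring
    have h4 : (1600 : ℝ) ^ 14 ≤ k ^ 14 := pow_le_pow_left₀ (by norm_num) hk 14
    have h5 : (1600 : ℝ) ^ 2 ≤ k ^ 2 := pow_le_pow_left₀ (by norm_num) hk 2
    have h6 : k ^ 2 * 1600 ^ 14 ≤ k ^ 16 := by
      rw [h2]
      exact mul_le_mul_of_nonneg_left h4 (by positivity)
    have h7 : (2 : ℝ) ^ 82 + 5 ≤ 1600 ^ 2 * (1600 ^ 14 - 12800) := by norm_num
    have h8 : (1600 : ℝ) ^ 2 * (1600 ^ 14 - 12800) ≤ k ^ 2 * (1600 ^ 14 - 12800) :=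
      mul_le_mul_of_nonneg_right h5 (by norm_num)
    linarith
  calc 2 * ((Real.exp X * (2 ^ 33 * g ^ 16)) * e6) + 8 * J ^ 2 * e3 + 5
      ≤ 2 ^ 82 * Real.exp (250 * X * L2) + 12800 * k ^ 2 * Real.exp (250 * X * L2) +
        5 * Real.exp (250 * X * L2) := by linarith
    _ = (2 ^ 82 + 12800 * k ^ 2 + 5) * Real.exp (250 * X * L2) := by ring
    _ ≤ _ := mul_le_mul_of_nonneg_right hk16 hE.le

/-- the estimate of the degree, threshold rounding -/
theorem deg_thr {A X k Lg L2 g J : ℝ} {e6 e3 : ℝ} (hX : 0 ≤ X) (hk : 20000 ≤ k)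
    (hLg : 9.7 ≤ Lg) (hLk : Lg ≤ k) (hL2 : Lg ≤ L2) (hA0 : 0 ≤ A) (hA : A ≤ 1.001 * X)
    (hg0 : 8 ≤ g) (hg : g ≤ 8 + 0.578 * (k * X)) (hAg : A * g ≤ 8.01 * X) (hJ0 : 0 ≤ J)
    (hJ : J ≤ (4 * g + 1) * Lg + 2) (he6 : e6 ≤ Real.exp (64 * A * J))
    (he60 : 0 ≤ e6) (he30 : 0 ≤ e3)
    (he3 : e3 ≤ Real.exp (32 * A * J)) :
    128 * (Real.exp X * (2 ^ 33 * g ^ 16)) * e6 + 8 * J ^ 2 * e3 + 5 ≤
      (1 + k) ^ 16 * Real.exp (2500 * X * L2) := by
  have hAJ : 0 ≤ A * J := by positivity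
  have hgx : g ≤ k / 8 * Real.exp (4.7 * X) := by
    have h1 := Real.add_one_le_exp (4.7 * X)
    have h2 : k / 8 * (4.7 * X + 1) ≤ k / 8 * Real.exp (4.7 * X) :=
      mul_le_mul_of_nonneg_left h1 (by linarith)
    have h3 : 0 ≤ k * X := by positivity
    nlinarith
  have hg16 : 2 ^ 48 * g ^ 16 ≤ k ^ 16 * Real.exp (75.2 * X) := by
    calc 2 ^ 48 * g ^ 16 ≤ 2 ^ 48 * (k / 8 * Real.exp (4.7 * X)) ^ 16 := by
          gcongr
      _ = k ^ 16 * Real.exp (75.2 * X) := by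
          rw [mul_pow, ← Real.exp_nat_mul, div_pow]
          have h1 : ((16 : ℕ) : ℝ) * (4.7 * X) = 75.2 * X := by
            push_cast
            ring
          rw [h1]
          ring
  have hJ5 : J ≤ 5 * g * Lg := by nlinarith
  have hJk : J ≤ k ^ 2 * Real.exp (4.7 * X) := by
    calc J ≤ 5 * g * Lg := hJ5
      _ ≤ 5 * (k / 8 * Real.exp (4.7 * X)) * k := by gcongr
      _ = 5 / 8 * (k ^ 2 * Real.exp (4.7 * X)) := by ring
      _ ≤ _ := by
        have : 0 ≤ k ^ 2 * Real.exp (4.7 * X) := by positivity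
        linarith
  have hJ2 : J ^ 2 ≤ k ^ 4 * Real.exp (9.4 * X) := by
    calc J ^ 2 ≤ (k ^ 2 * Real.exp (4.7 * X)) ^ 2 := pow_le_pow_left₀ hJ0 hJk 2
      _ = k ^ 4 * Real.exp (9.4 * X) := by
          rw [mul_pow, ← Real.exp_nat_mul]
          have h1 : ((2 : ℕ) : ℝ) * (4.7 * X) = 9.4 * X := by
            push_cast
            ring
          rw [h1]
          ring
  have h6 : 64 * A * J ≤ 2114.7 * X * Lg + 128.2 * X := by
    have h1 : 64 * A * J ≤ 64 * A * ((4 * g + 1) * Lg + 2) :=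
      mul_le_mul_of_nonneg_left hJ (by positivity)
    have h2 : 64 * A * ((4 * g + 1) * Lg + 2) = 256 * (A * g) * Lg + 64 * A * Lg + 128 * A := by
      ring
    have h4 : (A * g) * Lg ≤ 8.01 * X * Lg := mul_le_mul_of_nonneg_right hAg (by linarith)
    have h5 : A * Lg ≤ 1.001 * X * Lg := mul_le_mul_of_nonneg_right hA (by linarith)
    rw [h2] at h1
    have h7 : 0 ≤ X * Lg := by positivity
    nlinarith
  have hE : 0 < Real.exp (2500 * X * L2) := Real.exp_pos _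
  have hXL : X * Lg ≤ X * L2 := mul_le_mul_of_nonneg_left hL2 hX
  have hX7 : 9.7 * X ≤ X * Lg := by nlinarith
  have hmain : Real.exp X * Real.exp (75.2 * X) * e6 ≤ Real.exp (2500 * X * L2) := by
    calc Real.exp X * Real.exp (75.2 * X) * e6 ≤
        Real.exp X * Real.exp (75.2 * X) * Real.exp (64 * A * J) := by gcongr
      _ ≤ _ := by
        rw [← Real.exp_add, ← Real.exp_add]
        apply Real.exp_le_exp.2
        nlinarith
  have hmain2 : Real.exp (9.4 * X) * e3 ≤ Real.exp (2500 * X * L2) := by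
    calc Real.exp (9.4 * X) * e3 ≤ Real.exp (9.4 * X) * Real.exp (32 * A * J) := by gcongr
      _ ≤ _ := by
        rw [← Real.exp_add]
        apply Real.exp_le_exp.2
        nlinarith
  have hone : 1 ≤ Real.exp (2500 * X * L2) := by
    apply Real.one_le_exp
    have : 0 ≤ X * L2 := by linarith
    linarith
  have t1 : 128 * (Real.exp X * (2 ^ 33 * g ^ 16)) * e6 ≤
      k ^ 16 / 2 ^ 8 * Real.exp (2500 * X * L2) := by
    calc 128 * (Real.exp X * (2 ^ 33 * g ^ 16)) * e6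
        = Real.exp X * (2 ^ 48 * g ^ 16) / 2 ^ 8 * e6 := by ring
      _ ≤ Real.exp X * (k ^ 16 * Real.exp (75.2 * X)) / 2 ^ 8 * e6 := by gcongr
      _ = k ^ 16 / 2 ^ 8 * (Real.exp X * Real.exp (75.2 * X) * e6) := by ring
      _ ≤ _ := mul_le_mul_of_nonneg_left hmain (by positivity)
  have t2 : 8 * J ^ 2 * e3 ≤ 8 * k ^ 4 * Real.exp (2500 * X * L2) := by
    calc 8 * J ^ 2 * e3 ≤ 8 * (k ^ 4 * Real.exp (9.4 * X)) * e3 := by gcongr
      _ = 8 * k ^ 4 * (Real.exp (9.4 * X) * e3) := by ring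
      _ ≤ _ := mul_le_mul_of_nonneg_left hmain2 (by positivity)
  have hk16 : k ^ 16 / 2 ^ 8 + 8 * k ^ 4 + 5 ≤ (1 + k) ^ 16 := by
    have h1 : k ^ 16 ≤ (1 + k) ^ 16 := pow_le_pow_left₀ (by linarith) (by linarith) 16
    have h2 : k ^ 16 = k ^ 4 * k ^ 12 := by ring
    have h4 : (20000 : ℝ) ^ 12 ≤ k ^ 12 := pow_le_pow_left₀ (by norm_num) hk 12
    have h5 : (20000 : ℝ) ^ 4 ≤ k ^ 4 := pow_le_pow_left₀ (by norm_num) hk 4
    have h6 : k ^ 4 * 20000 ^ 12 ≤ k ^ 16 := by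
      rw [h2]
      exact mul_le_mul_of_nonneg_left h4 (by positivity)
    have h7 : k ^ 4 * 1000 ≤ k ^ 4 * 20000 ^ 12 :=
      mul_le_mul_of_nonneg_left (by norm_num) (by positivity)
    have h8 : (5 : ℝ) ≤ k ^ 4 := le_trans (by norm_num) h5
    have h9 : k ^ 4 * 1000 ≤ k ^ 16 := h7.trans h6
    linarith
  calc 128 * (Real.exp X * (2 ^ 33 * g ^ 16)) * e6 + 8 * J ^ 2 * e3 + 5
      ≤ k ^ 16 / 2 ^ 8 * Real.exp (2500 * X * L2) + 8 * k ^ 4 * Real.exp (2500 * X * L2) +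
        5 * Real.exp (2500 * X * L2) := by linarith
    _ = (k ^ 16 / 2 ^ 8 + 8 * k ^ 4 + 5) * Real.exp (2500 * X * L2) := by ring
    _ ≤ _ := mul_le_mul_of_nonneg_right hk16 hE.le

end Pool.Agent.Lib.P325k
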